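import Pool.Agent.H.MP_3974fb_lc.D

set_option autoImplicit false

namespace Pool.Agent.Results.MP_3974fb_lc.Complete
open Filter Topology

def UD (x : ℕ → ℝ) : Prop :=
  ∀ u v : ℝ, 0 ≤ u → u < v → v ≤ 1 →
    Tendsto (fun N : ℕ => (((Finset.range N).filter fun n =>
      u ≤ Int.fract (x n) ∧ Int.fract (x n) < v).card : ℝ) / (N : ℝ)) atTop (𝓝 (v - u))

def NN (α : ℝ) : Set ℝ := {ξ | UD fun n => ξ * α ^ n}

def Pi03 {X : Type} [TopologicalSpace X] (A : Set X) : Prop :=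
  ∃ F : ℕ → ℕ → Set X, (∀ i j, IsClosed (F i j)) ∧ A = ⋂ i, ⋃ j, F i j

def D2 {X : Type} [TopologicalSpace X] (D : Set X) : Prop :=
  ∃ A B : Set X, Pi03 A ∧ Pi03 B ∧ D = A \ B

theorem ud_iff (x : ℕ → ℝ) : UD x ↔ Pool.Agent.H.MP_0447a2_lc.UD x := by
  refine ⟨fun h u v h0 h1 h2 => ?_, fun h u v h0 h1 h2 => h u v h0 h1.le h2⟩
  rcases h1.lt_or_eq with h1 | rfl
  · exact h u v h0 h1 h2
  · have : ∀ n, ¬ (u ≤ Int.fract (x n) ∧ Int.fract (x n) < u) := fun n h => by linarith [h.1, h.2]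
    simp [this]

theorem pi (α : ℝ) : Pi03 (NN α) := by
  simp only [NN, ud_iff]
  exact Pool.Agent.H.MP_0447a2_lc.ud_pi3 (fun (ξ : ℝ) n => ξ * α ^ n) fun n => by fun_prop

theorem result (α β : ℝ) (hα : 1 < |α|) (hβ : 1 < |β|) (h : (NN α \ NN β).Nonempty) :
    D2 (NN α \ NN β) ∧ ¬ D2 (NN α \ NN β)ᶜ := by
  refine ⟨⟨_, _, pi α, pi β, rfl⟩, ?_⟩
  rintro ⟨_, _, ⟨F1, h1, rfl⟩, ⟨F2, h2, rfl⟩, hF⟩
  obtain ⟨ξ, x1, x2⟩ := h
  obtain ⟨G, hG, hd⟩ := Pool.Agent.H.MP_0447a2_lc.diag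
  obtain ⟨f, f1, f2⟩ := Pool.Agent.H.MP_3974fb_lc.both hα hβ ((ud_iff _).mp x1)
    (fun e => x2 ((ud_iff _).mpr e)) G hG
  refine hd (fun c i j => f ⁻¹' (if c = true then F1 else F2) i j)
    (fun c i j => IsClosed.preimage f1 (by cases c <;> simp [h1, h2])) (Set.ext fun y => ?_)
  have := Set.ext_iff.mp hF (f y)
  simp only [Set.mem_compl_iff, Set.mem_diff, NN, Set.mem_setOf_eq, ud_iff] at this
  rw [Set.mem_compl_iff, f2, this]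
  simp

end Pool.Agent.Results.MP_3974fb_lc.Complete
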